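import Mathlib
import Pool.Agent.Helper539.SPForcing
import Pool.Agent.Helper539.SGIndex

set_option autoImplicit false

namespace Pool.Agent.Results.MP_1d5a21_lc.SplittingAlephOneGeneral

open Cardinal Pool.Agent.Helper539.SPForcing Pool.Agent.Helper539.SGIndex

universe u

/-- In the extension by `P` the well-ordered set `K` has order type `ω₁`, the splitting number is
`ℵ₁` (there is a splitting family indexed by `K` and no countable one), and the strong polarized
relation `(ω₁, ω) → (ω₁, ω)^{1,1}_2` holds. -/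
def SplittingAlephOneAndPolarized (P : Type u) [Preorder P] (K : Type u) [LinearOrder K] :
    Set P :=
  fand (IsOmegaOne P K)
    (fand (fand (HasSplittingFamily P K) (fnot (HasSplittingFamily P ℕ))) (Polarized P K ℕ))

/-- For every regular uncountable cardinal `κ` with `κ ^ μ ≤ κ` for all `μ < κ`, in particular
for `ℵ₁` under the continuum hypothesis, there is a forcing notion forcing that `κ` is `ω₁`, that
`𝔰 = ℵ₁` and that `(ω₁, ω) → (ω₁, ω)^{1,1}_2`. Such a cardinal exists unconditionally one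
universe up: all ordinals of the smallest universe. -/
theorem result :
    (∀ κ : Cardinal.{u}, ℵ₀ < κ → κ.IsRegular → (∀ μ < κ, κ ^ μ ≤ κ) →
      ∃ (P : Type u) (_ : Preorder P), Nonempty P ∧
        ∀ p : P, p ∈ SplittingAlephOneAndPolarized P κ.ord.ToType) ∧
    ((ℵ₁ : Cardinal.{0}) = 𝔠 → ∃ (P : Type) (_ : Preorder P), Nonempty P ∧
      ∀ p : P, p ∈ SplittingAlephOneAndPolarized P (ℵ₁ : Cardinal.{0}).ord.ToType) ∧
    (∃ (P : Type 1) (_ : Preorder P), Nonempty P ∧
      ∀ p : P, p ∈ SplittingAlephOneAndPolarized P Ordinal.{0}) := by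
  refine ⟨fun κ hunc hreg hpow => ?_, fun hCH => ?_, ?_⟩
  · have := reg_of_card hunc hreg hpow
    obtain ⟨P, i, h1, h2⟩ := main (K := κ.ord.ToType)
    exact ⟨P, i, h1, fun p => ⟨(h2 p).1, (h2 p).2.1, (h2 p).2.2⟩⟩
  · have := reg_of_card aleph0_lt_aleph_one isRegular_aleph_one (pow_aleph_one hCH)
    obtain ⟨P, i, h1, h2⟩ := main (K := (ℵ₁ : Cardinal.{0}).ord.ToType)
    exact ⟨P, i, h1, fun p => ⟨(h2 p).1, (h2 p).2.1, (h2 p).2.2⟩⟩
  · obtain ⟨P, i, h1, h2⟩ := main (K := Ordinal.{0})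
    exact ⟨P, i, h1, fun p => ⟨(h2 p).1, (h2 p).2.1, (h2 p).2.2⟩⟩

end Pool.Agent.Results.MP_1d5a21_lc.SplittingAlephOneGeneral
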